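import Pool.Agent.Lib.MP_6083a5_an.AbsD

/-!
For a nested sequence of nodes the Lebesgue functions exceed `n ^ c` infinitely often at almost
every point, with one absolute exponent `c`.
-/

open Filter Set MeasureTheory

namespace Pool.Agent.Results.MP_6083a5_an.AbsoluteExponent

open Pool.Agent.Lib.MP_6083a5_an in
theorem result : ∃ c : ℝ, 0 < c ∧ ∀ x : ℕ → ℝ, Function.Injective x →
    (∀ k, x k ∈ Icc (-1 : ℝ) 1) →
    ∀ᵐ y ∂volume.restrict (Ioo (-1 : ℝ) 1), ∃ᶠ n : ℕ in atTop,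
      (n : ℝ) ^ c ≤
        ∑ k ∈ Finset.range n, |∏ i ∈ (Finset.range n).erase k, (y - x i) / (x k - x i)| := by
  obtain ⟨c, hc, h⟩ := Absolute.null_set
  refine ⟨c, hc, fun x hinj hmem => ae_restrict_of_ae ?_⟩
  simp only [← Absolute.leb_prod]
  rw [ae_iff]
  refine measure_mono_null (fun y hy => ?_) (measure_iUnion_null (h x hinj hmem))
  simp only [mem_ofPred_eq, not_frequently, not_le] at hy
  obtain ⟨N, hN⟩ := eventually_atTop.1 hy
  exact mem_iUnion.2 ⟨N, fun n hn => (hN n hn).le⟩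

end Pool.Agent.Results.MP_6083a5_an.AbsoluteExponent
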