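import Pool.Agent.Lib.MP_6083a5_an.Main

open Filter Set MeasureTheory

namespace Pool.Agent.Results.MP_6083a5_an.TriangularArray

theorem result (t : (n : ℕ) → Fin n → ℝ) (hinj : ∀ n, Function.Injective (t n))
    (hmem : ∀ n k, t n k ∈ Icc (-1 : ℝ) 1) :
    ∀ᵐ x ∂volume.restrict (Ioo (-1 : ℝ) 1),
      ((2 / Real.pi : ℝ) : EReal) ≤ atTop.limsup fun n : ℕ =>
        (((∑ k : Fin n, |∏ i ∈ Finset.univ.erase k, (x - t n i) / (t n k - t n i)|)
          / Real.log n : ℝ) : EReal) := by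
  have hL : ∀ (n : ℕ) (x : ℝ), ∑ k : Fin n, |(Lagrange.basis Finset.univ (t n) k).eval x|
      = ∑ k : Fin n, |∏ i ∈ Finset.univ.erase k, (x - t n i) / (t n k - t n i)| := by
    intro n x
    refine Finset.sum_congr rfl fun k _ => ?_
    congr 1
    rw [Lagrange.basis, Polynomial.eval_prod]
    refine Finset.prod_congr rfl fun i _ => ?_
    simp [Lagrange.basisDivisor, div_eq_inv_mul]
  have hae : ∀ᵐ x ∂(volume : Measure ℝ), ∀ (q : ℚ) (N : ℕ), (q : ℝ) < 2 / Real.pi →
      x ∉ {x ∈ Icc (-1 : ℝ) 1 | ∀ n, N ≤ n →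
        ∑ k, |(Lagrange.basis Finset.univ (t n) k).eval x| ≤ q * Real.log n} := by
    rw [ae_all_iff]
    intro q
    rw [ae_all_iff]
    intro N
    by_cases hq : (q : ℝ) < 2 / Real.pi
    · filter_upwards [measure_eq_zero_iff_ae_notMem.mp
        (Pool.Agent.Lib.MP_6083a5_an.null_set t hinj hmem q hq N)] with x hx _ using hx
    · exact Eventually.of_forall fun x h => absurd h hq
  rw [ae_restrict_iff' measurableSet_Ioo]
  filter_upwards [hae] with x hx hxI
  refine EReal.ge_of_forall_gt_iff_ge.mp fun z hz => ?_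
  obtain ⟨q, hq1, hq2⟩ := exists_rat_btwn (EReal.coe_lt_coe_iff.mp hz)
  refine le_limsup_of_frequently_le ?_
  rw [frequently_atTop]
  intro N
  have h3 := hx q (max N 2) hq2
  simp only [not_and, not_forall, not_le] at h3
  obtain ⟨n, hn, hn'⟩ := h3 (Ioo_subset_Icc_self hxI)
  refine ⟨n, (le_max_left _ _).trans hn, ?_⟩
  have hn2 : 2 ≤ n := (le_max_right _ _).trans hn
  have hlog : 0 < Real.log n := Real.log_pos (by exact_mod_cast (by omega : 1 < n))
  rw [hL] at hn'
  rw [EReal.coe_le_coe_iff, le_div_iff₀ hlog]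
  nlinarith

end Pool.Agent.Results.MP_6083a5_an.TriangularArray
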